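import Pool.Agent.Lib.MP_460d31_gt.Converse

/-!
# MP_460d31_gt: the cohomology rings of string point-invertible manifolds

The largest class of manifolds given by a homological condition for which the bound of the
problem is known is Shelukhin's class of string point-invertible manifolds: some composition of
the operators `P_a(z) = ev {a, z}`, built from the loop bracket on the homology of the free loop
space, takes the class of a point to the fundamental class.  We determine the cohomology rings
that occur, over any field of characteristic two: they are the rings of products of spheres.

Let `H` be a connected graded commutative algebra with Poincare duality of formal dimension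
`n > 0` over a field of characteristic two.  The following are equivalent.

* There is a Batalin-Vilkovisky algebra `L` with constant loops `H → L` and evaluation `L → H`
  in which some composition of operators `P_a` takes the top class to `1`.
* There is one in which every subspace of `H` containing the top class and closed under all
  operators `P_a` and all multiplications contains `1`.
* `H` has a basis of squarefree monomials in homogeneous elements of positive degree with
  square zero.
-/

namespace Pool.Agent.Results.MP_460d31_gt.StringPointInvertible

open MP460d31

universe u v

theorem result (K : Type u) (H : Type v) [Field K] [CharP K 2] [CommRing H] [Algebra K H]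
    (𝒜 : ℕ → Submodule K H) [GradedAlgebra 𝒜] (n : ℕ) (hn : 0 < n) (μ : H)
    (hPD : PoincareAlgebra K H 𝒜 n μ) :
    List.TFAE [
      ∃ 𝓢 : StringAlgebra.{u, v, v} K H, 𝓢.PointInvertible μ,
      ∃ 𝓢 : StringAlgebra.{u, v, v} K H, 𝓢.WeaklyPointInvertible μ,
      SphereProductRing K H 𝒜 n μ] := by
  tfae_have 1 → 2 := by
    rintro ⟨𝓢, h⟩
    exact ⟨𝓢, h.weakly⟩
  tfae_have 2 → 3 := by
    rintro ⟨𝓢, h⟩
    exact classify hPD (diffSimple_of_weakly hPD 𝓢 h)
  tfae_have 3 → 1 := by
    intro h
    exact exists_string hPD hn h
  tfae_finish

end Pool.Agent.Results.MP_460d31_gt.StringPointInvertible
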